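import Pool.Agent.W5h23.EL.Pert

set_option autoImplicit false

/-!
Elliott's problem for families of shifts near the values of smooth functions and of polynomials.
-/

namespace Pool.Agent.W5h23.EL

open Finset Polynomial
open Pool.Agent.W5h23.RG (energy)
open Pool.Agent.W5h80.Ell (Mult SmallMeans thin_ell)
open Pool.Agent.H373R2.T7 (exI)
open Pool.Agent.W5h80.Bil (EnZ)

open Classical in
/-- few exceptions among the shifts `w m`, `m ∈ S` -/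
def Few (B N : ℕ) (ε : ℝ) (f : ℕ → ℂ) {L : ℕ} (F : Fin L → ℕ → ℂ) (S : Finset ℕ) (w : ℕ → ℤ) : Prop :=
  ((S.filter fun m => ∃ l, ∃ x : ℕ, x ≤ B * N ∧ ε * N < ‖∑ n ∈ Icc 1 x, F l n * exI f (n + w m)‖).card : ℝ) ≤
    ε * S.card

/-- the criterion for finite sets of indices -/
theorem crit (h B L : ℕ) (K ε : ℝ) (hh : 1 ≤ h) (hB : 1 ≤ B) (hε : 0 < ε) : ∃ A N₀ : ℕ, 1 ≤ A ∧
    ∀ N : ℕ, N₀ ≤ N → ∀ f : ℕ → ℂ, Mult f → SmallMeans f A (2 * B * N) →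
    ∀ F : Fin L → ℕ → ℂ, (∀ l n, ‖F l n‖ ≤ 1) →
    ∀ (S : Finset ℕ) (w : ℕ → ℤ), (∀ m ∈ S, |w m| ≤ B * N) →
      (energy h (fun i : {i // i ∈ S} => w i) : ℝ) * N ≤ K * (S.card : ℝ) ^ (2 * h) → Few B N ε f F S w := by
  classical
  obtain ⟨A, N₀, hA, h1⟩ := thin_ell h B L K ε hh hB hε
  refine ⟨A, N₀, hA, fun N hN f hf hm F hF S w hw hE => ?_⟩
  have h2 := h1 N hN f hf hm {i // i ∈ S} (fun i => w i) (fun i => hw i i.2) (by
    rw [Fintype.card_coe]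
    exact hE) F hF
  rw [Fintype.card_coe] at h2
  refine le_trans (Nat.cast_le.2 ?_) h2
  rw [Nat.card_eq_fintype_card, Fintype.card_subtype]
  have h3 : S.filter (fun m => ∃ l, ∃ x : ℕ, x ≤ B * N ∧ ε * N < ‖∑ n ∈ Icc 1 x, F l n * exI f (n + w m)‖) ⊆
      (univ.filter (fun m : {i // i ∈ S} => ∃ l, ∃ x : ℕ, x ≤ B * N ∧
        ε * N < ‖∑ n ∈ Icc 1 x, F l n * exI f (n + w m)‖)).image (fun m : {i // i ∈ S} => (m : ℕ)) := by
    intro m hm
    rw [mem_filter] at hm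
    rw [mem_image]
    exact ⟨⟨m, hm.1⟩, by rw [mem_filter]; exact ⟨mem_univ _, hm.2⟩, rfl⟩
  exact (card_le_card h3).trans card_image_le

/-- shifts near the values of a smooth function -/
theorem ell_smooth (Q B L T : ℕ) (c0 C0 ε : ℝ) (hQ : 1 ≤ Q) (hB : 1 ≤ B) (hT : 1 ≤ T) (hc0 : 0 < c0) (hC0 : 1 ≤ C0)
    (hε : 0 < ε) : ∃ A N₀ : ℕ, 1 ≤ A ∧ ∀ N : ℕ, N₀ ≤ N → ∀ f : ℕ → ℂ, Mult f → SmallMeans f A (2 * B * N) →
    ∀ F : Fin L → ℕ → ℂ, (∀ l n, ‖F l n‖ ≤ 1) →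
    ∀ (M : ℕ) (V : ℝ) (φ : ℝ → ℝ), (N : ℝ) ≤ T * V → V ≤ (M : ℝ) ^ Q → Pool.Agent.W5h23.SF.Smooth (Q + 2) c0 C0 M V φ →
    ∀ S : Finset ℕ, S ⊆ Ico M (2 * M) → M ≤ T * S.card →
    ∀ w : ℕ → ℤ, (∀ m ∈ S, |(w m : ℝ) - φ m| ≤ T) → (∀ m ∈ S, |w m| ≤ B * N) → Few B N ε f F S w := by
  classical
  obtain ⟨p, C, hp, hC, hen⟩ := Pool.Agent.W5h23.SF.floor_energy Q hQ c0 C0 hc0 hC0
  obtain ⟨K, hK⟩ : ∃ K : ℝ, K = (4 * p * (T + 1) + 1) * C * T * (T : ℝ) ^ (2 * p) := ⟨_, rfl⟩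
  obtain ⟨A, N₀, hA, h1⟩ := crit p B L K ε hp hB hε
  refine ⟨A, N₀ + T + 1, hA, fun N hN f hf hm F hF M V φ hNV hVQ hφ S hS hcard w hw hwB => ?_⟩
  apply h1 N (by omega) f hf hm F hF S w hwB
  have hTr : (1 : ℝ) ≤ T := by exact_mod_cast hT
  have hV1 : 1 ≤ V := by
    have h2 : (T : ℝ) * 1 ≤ T * V := by
      rw [mul_one]
      refine le_trans ?_ hNV
      exact_mod_cast (by omega : T ≤ N)
    exact le_of_mul_le_mul_left h2 (by linarith)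
  have hV0 : 0 < V := by linarith
  have hM : 1 ≤ M := by
    rcases Nat.eq_zero_or_pos M with h | h
    · subst h
      rw [Nat.cast_zero, zero_pow (by omega)] at hVQ
      linarith
    · exact h
  have e1 := hen M V φ hM hV1 hVQ hφ S hS 0
  have e2 : (energy p (fun i : {i // i ∈ S} => ⌊φ ((i : ℕ) : ℝ)⌋) : ℝ) ≤ C * (M : ℝ) ^ (2 * p) / V := by
    unfold energy
    simpa only [zero_add] using e1
  have e3 : energy p (fun i : {i // i ∈ S} => w i) ≤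
      (4 * p * (T + 1) + 1) * energy p (fun i : {i // i ∈ S} => ⌊φ ((i : ℕ) : ℝ)⌋) := by
    apply energy_pert p (T + 1)
    intro i
    have h3 := abs_le.1 (hw i i.2)
    have h4 := Int.floor_le (φ ((i : ℕ) : ℝ))
    have h5 := Int.lt_floor_add_one (φ ((i : ℕ) : ℝ))
    have h6 : |((w i - ⌊φ ((i : ℕ) : ℝ)⌋ : ℤ) : ℝ)| ≤ ((T + 1 : ℕ) : ℝ) := by
      rw [abs_le]
      push_cast
      constructor <;> linarith
    exact_mod_cast h6
  have e4 : (energy p (fun i : {i // i ∈ S} => w i) : ℝ) ≤ (4 * p * (T + 1) + 1) * (C * (M : ℝ) ^ (2 * p) / V) := by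
    calc (energy p (fun i : {i // i ∈ S} => w i) : ℝ) ≤
        (((4 * p * (T + 1) + 1) * energy p (fun i : {i // i ∈ S} => ⌊φ ((i : ℕ) : ℝ)⌋) : ℕ) : ℝ) := by exact_mod_cast e3
      _ = (4 * p * (T + 1) + 1) * (energy p (fun i : {i // i ∈ S} => ⌊φ ((i : ℕ) : ℝ)⌋) : ℝ) := by push_cast; ring
      _ ≤ _ := mul_le_mul_of_nonneg_left e2 (by positivity)
  have hMS : (M : ℝ) ≤ T * S.card := by exact_mod_cast hcard
  calc (energy p (fun i : {i // i ∈ S} => w i) : ℝ) * N ≤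
      (4 * p * (T + 1) + 1) * (C * (M : ℝ) ^ (2 * p) / V) * (T * V) :=
        mul_le_mul e4 hNV (by positivity) (by positivity)
    _ = (4 * p * (T + 1) + 1) * C * T * (M : ℝ) ^ (2 * p) := by
        field_simp
    _ ≤ (4 * p * (T + 1) + 1) * C * T * (T * S.card : ℝ) ^ (2 * p) := by
        apply mul_le_mul_of_nonneg_left _ (by positivity)
        exact pow_le_pow_left₀ (by positivity) hMS _
    _ = _ := by
        rw [hK, mul_pow]
        ring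

/-- shifts near the values of a polynomial -/
theorem ell_poly (P : ℤ[X]) (hP : 1 ≤ P.natDegree) (B L T : ℕ) (ε : ℝ) (hB : 1 ≤ B) (hT : 1 ≤ T)
    (hε : 0 < ε) : ∃ A N₀ : ℕ, 1 ≤ A ∧ ∀ N : ℕ, N₀ ≤ N → ∀ f : ℕ → ℂ, Mult f → SmallMeans f A (2 * B * N) →
    ∀ F : Fin L → ℕ → ℂ, (∀ l n, ‖F l n‖ ≤ 1) → ∀ M : ℕ, N ≤ T * M ^ P.natDegree →
    ∀ S : Finset ℕ, S ⊆ Icc 1 M → M ≤ T * S.card →
    ∀ w : ℕ → ℤ, (∀ m ∈ S, |w m - P.eval (m : ℤ)| ≤ T) → (∀ m ∈ S, |w m| ≤ B * N) → Few B N ε f F S w := by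
  classical
  obtain ⟨p, C, hp, hC, hen⟩ := Pool.Agent.W5h23.SF.energy_poly_pos P hP
  obtain ⟨K, hK⟩ : ∃ K : ℝ, K = (4 * p * T + 1) * C * T * (T : ℝ) ^ (2 * p) := ⟨_, rfl⟩
  obtain ⟨A, N₀, hA, h1⟩ := crit p B L K ε hp hB hε
  refine ⟨A, N₀ + 1, hA, fun N hN f hf hm F hF M hNM S hS hcard w hw hwB => ?_⟩
  apply h1 N (by omega) f hf hm F hF S w hwB
  have hM : 1 ≤ M := by
    rcases Nat.eq_zero_or_pos M with h | h
    · subst h
      rw [zero_pow (by omega)] at hNM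
      omega
    · exact h
  have e1 := hen M hM
  have e2 : energy p (fun i : {i // i ∈ S} => P.eval (((i : ℕ) : ℤ))) ≤
      Pool.Agent.H373R2.T7.energy p M (fun m => P.eval (m : ℤ)) := by
    have h2 := Pool.Agent.W5h23.SF.energy_sub p M (fun m => P.eval (m : ℤ)) 0 S hS
    unfold energy
    simpa only [zero_add] using h2
  have e3 : energy p (fun i : {i // i ∈ S} => w i) ≤
      (4 * p * T + 1) * energy p (fun i : {i // i ∈ S} => P.eval (((i : ℕ) : ℤ))) :=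
    energy_pert p T _ _ fun i => hw i i.2
  have hMS : (M : ℝ) ≤ T * S.card := by exact_mod_cast hcard
  have hNMr : (N : ℝ) ≤ T * (M : ℝ) ^ P.natDegree := by exact_mod_cast hNM
  calc (energy p (fun i : {i // i ∈ S} => w i) : ℝ) * N ≤
      (((4 * p * T + 1) * Pool.Agent.H373R2.T7.energy p M (fun m => P.eval (m : ℤ)) : ℕ) : ℝ) * (T * (M : ℝ) ^ P.natDegree) := by
        apply mul_le_mul _ hNMr (by positivity) (by positivity)
        exact_mod_cast e3.trans (Nat.mul_le_mul_left _ e2)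
    _ = (4 * p * T + 1) * T * ((Pool.Agent.H373R2.T7.energy p M (fun m => P.eval (m : ℤ)) : ℝ) * (M : ℝ) ^ P.natDegree) := by
        push_cast
        ring
    _ ≤ (4 * p * T + 1) * T * (C * (M : ℝ) ^ (2 * p)) := mul_le_mul_of_nonneg_left e1 (by positivity)
    _ ≤ (4 * p * T + 1) * T * (C * (T * S.card : ℝ) ^ (2 * p)) := by
        apply mul_le_mul_of_nonneg_left _ (by positivity)
        apply mul_le_mul_of_nonneg_left _ hC.le
        exact pow_le_pow_left₀ (by positivity) hMS _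
    _ = _ := by
        rw [hK, mul_pow]
        ring

end Pool.Agent.W5h23.EL
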