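import Pool.Agent.W5h23.RG.En
import Pool.Agent.W5h23.SF.Fam
import Pool.Agent.W5h23.SF.Poly
import Pool.Agent.W5h80.Ell.Thin

set_option autoImplicit false

/-!
The additive energy of bounded perturbations of a family; Elliott's problem for families of shifts near the values of
smooth functions and of polynomials.
-/

namespace Pool.Agent.W5h23.EL

open Finset Polynomial
open Pool.Agent.W5h23.RG (energy)

/-- the differences `c` are not more frequent than the difference `0` -/
lemma diff_count {X : Type} [Fintype X] (σ : X → ℤ) (c : ℤ) :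
    Nat.card {q : X × X // σ q.1 - σ q.2 = c} ≤ Nat.card {q : X × X // σ q.1 = σ q.2} := by
  classical
  obtain ⟨I, hI⟩ : ∃ I : Finset ℤ, I = univ.image σ := ⟨_, rfl⟩
  have hσ : ∀ x, σ x ∈ I := fun x => by rw [hI]; exact mem_image_of_mem _ (mem_univ x)
  set n : ℤ → ℕ := fun k => (univ.filter fun x => σ x = k).card with hn
  have h0 : ∀ k, k ∉ I → n k = 0 := by
    intro k hk
    rw [hn]
    dsimp only
    rw [card_eq_zero, filter_eq_empty_iff]
    intro x _ hx
    exact hk (hx ▸ hσ x)
  have h1 : Nat.card {q : X × X // σ q.1 = σ q.2} = ∑ k ∈ I, n k * n k := by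
    rw [Nat.card_eq_fintype_card, Fintype.card_subtype]
    rw [card_eq_sum_card_fiberwise (f := fun q : X × X => σ q.1) (t := I) (fun q _ => hσ q.1)]
    refine sum_congr rfl fun k _ => ?_
    rw [hn]
    dsimp only
    rw [← card_product]
    congr 1
    ext q
    simp only [mem_filter, mem_univ, true_and, mem_product]
    constructor
    · rintro ⟨h2, h3⟩
      exact ⟨h3, by rw [← h2, h3]⟩
    · rintro ⟨h2, h3⟩
      exact ⟨by rw [h2, h3], h2⟩
  have h2 : Nat.card {q : X × X // σ q.1 - σ q.2 = c} = ∑ k ∈ I, n k * n (k - c) := by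
    rw [Nat.card_eq_fintype_card, Fintype.card_subtype]
    rw [card_eq_sum_card_fiberwise (f := fun q : X × X => σ q.1) (t := I) (fun q _ => hσ q.1)]
    refine sum_congr rfl fun k _ => ?_
    rw [hn]
    dsimp only
    rw [← card_product]
    congr 1
    ext q
    simp only [mem_filter, mem_univ, true_and, mem_product]
    constructor
    · rintro ⟨h2, h3⟩
      exact ⟨h3, by rw [← h3, ← h2]; ring⟩
    · rintro ⟨h2, h3⟩
      exact ⟨by rw [h2, h3]; ring, h2⟩
  have h3 : ∑ k ∈ I, n (k - c) * n (k - c) ≤ ∑ k ∈ I, n k * n k := by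
    have h4 : ∑ k ∈ I, n (k - c) * n (k - c) = ∑ k ∈ I.image (fun k => k - c), n k * n k := by
      rw [sum_image]
      intro a _ b _ hab
      have : a - c = b - c := hab
      linarith
    rw [h4]
    calc ∑ k ∈ I.image (fun k => k - c), n k * n k = ∑ k ∈ (I.image (fun k => k - c)).filter (fun k => k ∈ I), n k * n k := by
          rw [sum_filter]
          refine sum_congr rfl fun k _ => ?_
          split_ifs with h
          · rfl
          · rw [h0 k h, mul_zero]
      _ ≤ _ := by
          apply sum_le_sum_of_subset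
          intro k hk
          exact (mem_filter.1 hk).2
  rw [h1, h2]
  have h5 : ∀ k ∈ I, 2 * (n k * n (k - c)) ≤ n k * n k + n (k - c) * n (k - c) := by
    intro k _
    have h7 : (2 * ((n k : ℤ) * (n (k - c) : ℤ))) ≤ (n k : ℤ) * n k + (n (k - c) : ℤ) * n (k - c) := by
      nlinarith [sq_nonneg ((n k : ℤ) - n (k - c))]
    exact_mod_cast h7
  have h6 := sum_le_sum h5
  rw [← mul_sum, sum_add_distrib] at h6
  omega

/-- **The energy of a bounded perturbation.** -/
theorem energy_pert {ι : Type} [Fintype ι] (h T : ℕ) (v w : ι → ℤ) (hw : ∀ i, |w i - v i| ≤ T) :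
    energy h w ≤ (4 * h * T + 1) * energy h v := by
  classical
  set D : Finset ℤ := Finset.Icc (-(2 * h * T : ℤ)) (2 * h * T) with hD
  have hDc : D.card = 4 * h * T + 1 := by
    rw [hD, Int.card_Icc]
    have : (2 * (h : ℤ) * T + 1 - -(2 * h * T)) = ((4 * h * T + 1 : ℕ) : ℤ) := by push_cast; ring
    rw [this, Int.toNat_natCast]
  have h1 : energy h w = (univ.filter fun q : (Fin h → ι) × (Fin h → ι) => ∑ j, w (q.1 j) = ∑ j, w (q.2 j)).card := by
    unfold energy
    rw [Nat.card_eq_fintype_card, Fintype.card_subtype]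
  have hs : ∀ x : Fin h → ι, |∑ j, w (x j) - ∑ j, v (x j)| ≤ h * T := by
    intro x
    rw [← sum_sub_distrib]
    refine (abs_sum_le_sum_abs _ _).trans ((sum_le_sum fun j _ => hw (x j)).trans (le_of_eq ?_))
    rw [sum_const, card_univ, Fintype.card_fin, nsmul_eq_mul]
  have hmap : ∀ q ∈ (univ.filter fun q : (Fin h → ι) × (Fin h → ι) => ∑ j, w (q.1 j) = ∑ j, w (q.2 j)),
      (∑ j, v (q.1 j) - ∑ j, v (q.2 j)) ∈ D := by
    intro q hq
    have h2 := (mem_filter.1 hq).2
    have h3 := abs_le.1 (hs q.1)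
    have h4 := abs_le.1 (hs q.2)
    rw [hD, Finset.mem_Icc]
    constructor <;> nlinarith
  rw [h1, card_eq_sum_card_fiberwise hmap, ← hDc, ← smul_eq_mul, ← sum_const]
  refine sum_le_sum fun c _ => ?_
  have h2 := diff_count (fun x : Fin h → ι => ∑ j, v (x j)) c
  have h3 : Nat.card {q : (Fin h → ι) × (Fin h → ι) // ∑ j, v (q.1 j) = ∑ j, v (q.2 j)} = energy h v := rfl
  rw [h3] at h2
  refine le_trans ?_ h2
  rw [Nat.card_eq_fintype_card, Fintype.card_subtype]
  apply card_le_card
  intro q hq
  rw [mem_filter] at hq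
  rw [mem_filter]
  exact ⟨mem_univ _, hq.2⟩

end Pool.Agent.W5h23.EL
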